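import Mathlib

/-! Orbits of compositions of affine maps: shifts, linearity, bounds, and an averaging lemma. -/

set_option autoImplicit false

namespace Pool.Agent.U829.WD

open Finset

/-- The orbit `x_0 = x, x_(i+1) = a_i + d_i x_i`. -/
def orbit {m : ℕ} (a d : Fin m → ℤ) (x : ℤ) : Fin (m + 1) → ℤ :=
  fun k => Fin.induction (motive := fun _ => ℤ) x (fun i y => a i + d i * y) k

variable {m : ℕ}

theorem orbit_zero (a d : Fin m → ℤ) (x : ℤ) : orbit a d x 0 = x := rfl

theorem orbit_succ (a d : Fin m → ℤ) (x : ℤ) (i : Fin m) :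
    orbit a d x i.succ = a i + d i * orbit a d x i.castSucc := by
  unfold orbit
  rw [Fin.induction_succ]

theorem orbit_lin (a d : Fin m → ℤ) (x : ℤ) (i : Fin (m + 1)) :
    orbit a d x i = orbit 0 d 1 i * x + orbit a d 0 i := by
  induction i using Fin.induction with
  | zero => simp only [orbit_zero]; ring
  | succ i ih =>
    rw [orbit_succ, orbit_succ, orbit_succ, ih, Pi.zero_apply]
    ring

/-- the word `a` shifted by `t` -/
def word (a d : Fin m → ℤ) (t : Fin (m + 1) → ℤ) : Fin m → ℤ :=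
  fun i => a i + t i.succ - d i * t i.castSucc

theorem orbit_word (a d : Fin m → ℤ) (t : Fin (m + 1) → ℤ) (x : ℤ) (i : Fin (m + 1)) :
    orbit (word a d t) d (x + t 0) i = orbit a d x i + t i := by
  induction i using Fin.induction with
  | zero => simp only [orbit_zero]
  | succ i ih =>
    rw [orbit_succ, orbit_succ, ih]
    unfold word
    ring

theorem orbit_word' (a d : Fin m → ℤ) (t : Fin (m + 1) → ℤ) (x : ℤ) (i : Fin (m + 1)) :
    orbit 0 d 1 i * x + (orbit a d 0 i + t i) = orbit (word a d t) d (x + t 0) i := by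
  rw [orbit_word, orbit_lin a d x i]
  ring

theorem slope_pos {d : Fin m → ℤ} (hd : ∀ i, 1 ≤ d i) (i : Fin (m + 1)) : 1 ≤ orbit 0 d 1 i := by
  induction i using Fin.induction with
  | zero => simp only [orbit_zero]; norm_num
  | succ i ih =>
    rw [orbit_succ, Pi.zero_apply]
    have := hd i
    nlinarith

theorem slope_le {d : Fin m → ℤ} {A : ℕ} (hd : ∀ i, 1 ≤ d i) (hA : ∀ i, d i ≤ A) (i : Fin (m + 1)) :
    orbit 0 d 1 i ≤ ((A : ℤ) + 1) ^ (i : ℕ) := by
  induction i using Fin.induction with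
  | zero => simp only [orbit_zero]; norm_num
  | succ i ih =>
    rw [orbit_succ, Pi.zero_apply, zero_add]
    simp only [Fin.val_succ, pow_succ]
    simp only [Fin.val_castSucc] at ih
    have h0 : (0 : ℤ) ≤ orbit 0 d 1 i.castSucc := by linarith [slope_pos hd i.castSucc]
    calc d i * orbit 0 d 1 i.castSucc ≤ (A + 1) * ((A : ℤ) + 1) ^ (i : ℕ) := by
          apply mul_le_mul _ ih h0 (by positivity)
          have := hA i
          linarith
      _ = _ := by ring

theorem const_le {a d : Fin m → ℤ} {A : ℕ} {M : ℝ} (hM : 0 ≤ M) (hd : ∀ i, 1 ≤ d i)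
    (hA : ∀ i, d i ≤ A) (ha : ∀ i, |(a i : ℝ)| ≤ M) (i : Fin (m + 1)) :
    |(orbit a d 0 i : ℝ)| ≤ M * ((A : ℝ) + 1) ^ (i : ℕ) := by
  induction i using Fin.induction with
  | zero =>
    simp only [orbit_zero]
    simpa using hM
  | succ i ih =>
    rw [orbit_succ]
    simp only [Fin.val_succ, pow_succ]
    simp only [Fin.val_castSucc] at ih
    push_cast
    have h1 : |(d i : ℝ)| ≤ A := by
      rw [abs_of_nonneg (by exact_mod_cast (zero_le_one.trans (hd i)))]
      exact_mod_cast hA i
    have h2 : (1 : ℝ) ≤ ((A : ℝ) + 1) ^ (i : ℕ) := one_le_pow₀ (by linarith [Nat.cast_nonneg (α := ℝ) A])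
    calc |(a i : ℝ) + d i * (orbit a d 0 i.castSucc : ℝ)|
        ≤ |(a i : ℝ)| + |(d i : ℝ)| * |(orbit a d 0 i.castSucc : ℝ)| := by
          rw [← abs_mul]; exact abs_add_le _ _
      _ ≤ M * ((A : ℝ) + 1) ^ (i : ℕ) + A * (M * ((A : ℝ) + 1) ^ (i : ℕ)) := by
          apply add_le_add
          · exact (ha i).trans (le_mul_of_one_le_right hM h2)
          · exact mul_le_mul h1 ih (abs_nonneg _) (Nat.cast_nonneg _)
      _ = _ := by ring

/-- the box `∏ (u_i, u_i + H_i]` -/
noncomputable def box (u : Fin m → ℤ) (H : Fin m → ℕ) : Finset (Fin m → ℤ) :=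
  Fintype.piFinset fun i => Ioc (u i) (u i + H i)

/-- the cube of the shifts -/
noncomputable def cube (m s : ℕ) : Finset (Fin (m + 1) → ℤ) := Fintype.piFinset fun _ => Ioc (0 : ℤ) s

theorem card_cube (m s : ℕ) : (cube m s).card = s ^ (m + 1) := by
  unfold cube
  rw [Fintype.card_piFinset]
  simp

/-- **averaging over shifts** -/
theorem avg {u : Fin m → ℤ} {H : Fin m → ℕ} {d : Fin m → ℤ} {s h : ℕ} (hd : ∀ i, 1 ≤ d i)
    (hs : ∀ i, (s : ℤ) * (d i + 1) ≤ h) (hH : ∀ i, h ≤ H i) (B : Finset (Fin m → ℤ))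
    (hB : B ⊆ box u H) {E : ℝ} (hE0 : 0 ≤ E)
    (hE : ∀ a : Fin m → ℤ, (∀ i, u i - h < a i ∧ a i ≤ u i + H i + h) →
      (((cube m s).filter (fun t => word a d t ∈ B)).card : ℝ) ≤ E) :
    (B.card : ℝ) * (s : ℝ) ^ (m + 1) ≤ 3 ^ m * (∏ i, (H i : ℝ)) * E := by
  classical
  set Q := cube m s with hQ
  set X : Finset (Fin m → ℤ) := Fintype.piFinset fun i => Ioc (u i - h) (u i + H i + h) with hX
  have hXc : (X.card : ℝ) ≤ 3 ^ m * ∏ i, (H i : ℝ) := by
    rw [hX, Fintype.card_piFinset]
    push_cast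
    have : (3 : ℝ) ^ m * ∏ i, (H i : ℝ) = ∏ i, (3 * (H i : ℝ)) := by
      rw [Finset.prod_mul_distrib]
      simp
    rw [this]
    apply Finset.prod_le_prod (fun _ _ => Nat.cast_nonneg _)
    intro i _
    rw [Int.card_Ioc]
    have h1 : (u i + H i + h - (u i - h)).toNat = H i + 2 * h := by
      have : u i + H i + h - (u i - h) = ((H i + 2 * h : ℕ) : ℤ) := by push_cast; ring
      rw [this, Int.toNat_natCast]
    rw [h1]
    have := hH i
    have h2 : ((h : ℕ) : ℝ) ≤ H i := by exact_mod_cast this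
    push_cast
    linarith
  have key := Finset.sum_card_bipartiteAbove_eq_sum_card_bipartiteBelow (s := Q) (t := X)
    (fun t a => word a d t ∈ B)
  have h1 : (Q.card * B.card : ℕ) ≤ ∑ t ∈ Q, (X.bipartiteAbove (fun t a => word a d t ∈ B) t).card := by
    rw [← smul_eq_mul, ← Finset.sum_const]
    apply Finset.sum_le_sum
    intro t ht
    rw [hQ] at ht
    unfold cube at ht
    rw [Fintype.mem_piFinset] at ht
    apply Finset.card_le_card_of_injOn (fun b => fun i => b i - t i.succ + d i * t i.castSucc)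
    · intro b hb
      have hb' : b ∈ B := hb
      have hbox := hB hb'
      unfold box at hbox
      rw [Fintype.mem_piFinset] at hbox
      have hw : word (fun i => b i - t i.succ + d i * t i.castSucc) d t = b := by
        funext i
        unfold word
        ring
      rw [Finset.mem_coe, Finset.mem_bipartiteAbove, hw]
      refine ⟨?_, hb'⟩
      rw [hX, Fintype.mem_piFinset]
      intro i
      have h1 := mem_Ioc.1 (hbox i)
      have h2 := mem_Ioc.1 (ht i.succ)
      have h3 := mem_Ioc.1 (ht i.castSucc)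
      have h4 := hs i
      have h5 := hd i
      rw [mem_Ioc]
      constructor
      · nlinarith
      · nlinarith
    · intro b _ b' _ hbb
      funext i
      have := congrFun hbb i
      simp only at this
      linarith
  rw [key] at h1
  have h2 : ((Q.card * B.card : ℕ) : ℝ) ≤
      ∑ a ∈ X, ((Q.bipartiteBelow (fun t a => word a d t ∈ B) a).card : ℝ) := by
    exact_mod_cast h1
  have h3 : ∑ a ∈ X, ((Q.bipartiteBelow (fun t a => word a d t ∈ B) a).card : ℝ) ≤ X.card * E := by
    rw [← nsmul_eq_mul]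
    apply Finset.sum_le_card_nsmul
    intro a ha
    rw [hX, Fintype.mem_piFinset] at ha
    exact hE a (fun i => mem_Ioc.1 (ha i))
  have h4 : (B.card : ℝ) * (s : ℝ) ^ (m + 1) = ((Q.card * B.card : ℕ) : ℝ) := by
    rw [hQ, card_cube]
    push_cast
    ring
  rw [h4]
  exact h2.trans (h3.trans (mul_le_mul_of_nonneg_right hXc hE0))

end Pool.Agent.U829.WD
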