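import Mathlib
import Pool.Agent.N900.FC.Main
import Pool.Agent.U829.WD.Orb

/-! Almost all words: the count for one vector of slopes and at one scale. -/

set_option autoImplicit false

namespace Pool.Agent.U829.WD

open Finset Filter
open Pool.Agent.N900.FC
open Pool.Agent.Y827.GS

variable {m : ℕ}

/-- no prime divides `x_0 x_1 ... x_m` for every `x` -/
def Admissible (a d : Fin m → ℤ) : Prop :=
  ∀ p : ℕ, p.Prime → ∃ x : ℤ, ∀ i, ¬ (p : ℤ) ∣ orbit a d x i

/-- the number of the `1 ≤ x ≤ N` for which `x_i` is prime exactly for the `i ∈ J` -/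
def patternW (a d : Fin m → ℤ) (J : Finset (Fin (m + 1))) (N : ℕ) : ℕ :=
  ((Icc 1 N).filter (fun n : ℕ => ∀ i, (orbit a d n i).toNat.Prime ↔ i ∈ J)).card

open Classical in
/-- the sets of indices all of whose subsets are realised often -/
noncomputable def famW (C N : ℕ) (a d : Fin m → ℤ) : Finset (Finset (Fin (m + 1))) :=
  univ.filter (fun S => ∀ J ⊆ S, (N : ℝ) / (Real.log N) ^ C ≤ (patternW a d J N : ℝ))

theorem Cov.mono {T : ℕ} {F F' : Finset (Finset (Fin T))} (h : F ⊆ F') (hF : Cov F) : Cov F' :=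
  fun w => by
    obtain ⟨S, hS, hw⟩ := hF w
    exact ⟨S, h hS, hw⟩

/-- the form `D_i x + (c_i + t_i)` -/
def frm (a d : Fin m → ℤ) (t : Fin (m + 1) → ℤ) : Fin (m + 1) → ℤ × ℤ :=
  fun i => (orbit 0 d 1 i, orbit a d 0 i + t i)

open Classical in
/-- the classes of forms -/
noncomputable def cls (a d : Fin m → ℤ) (s : ℕ) : Fin (m + 1) → Finset (ℤ × ℤ) :=
  fun i => (Ioc (0 : ℤ) s).image (fun t => (orbit 0 d 1 i, orbit a d 0 i + t))

theorem card_cls (a d : Fin m → ℤ) (s : ℕ) (i : Fin (m + 1)) : (cls a d s i).card = s := by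
  classical
  unfold cls
  rw [card_image_of_injective]
  · simp
  · intro t t' h
    simpa using h

theorem frm_mem {a d : Fin m → ℤ} {s : ℕ} {t : Fin (m + 1) → ℤ} (ht : t ∈ cube m s) :
    frm a d t ∈ Fintype.piFinset (cls a d s) := by
  classical
  unfold cube at ht
  rw [Fintype.mem_piFinset] at ht ⊢
  intro i
  unfold cls frm
  exact mem_image_of_mem _ (ht i)

theorem frm_inj (a d : Fin m → ℤ) : Function.Injective (frm a d) := by
  intro t t' h
  funext i
  have := congrFun h i
  unfold frm at this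
  simpa using this

theorem pattern_le {a d : Fin m → ℤ} {s : ℕ} {t : Fin (m + 1) → ℤ} (ht : t ∈ cube m s)
    (J : Finset (Fin (m + 1))) (N : ℕ) :
    pattern (frm a d t) J N ≤ patternW (word a d t) d J N + s := by
  classical
  unfold cube at ht
  rw [Fintype.mem_piFinset] at ht
  have h0 := mem_Ioc.1 (ht 0)
  obtain ⟨k, hk⟩ : ∃ k : ℕ, t 0 = k := ⟨(t 0).toNat, (Int.toNat_of_nonneg h0.1.le).symm⟩
  have hks : k ≤ s := by
    have := h0.2
    rw [hk] at this
    exact_mod_cast this
  unfold pattern patternW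
  set P := (Icc 1 N).filter (fun n : ℕ => ∀ i, (orbit (word a d t) d n i).toNat.Prime ↔ i ∈ J) with hP
  have hsub : (Icc 1 N).filter (fun n : ℕ =>
      ∀ i, ((frm a d t i).1 * (n : ℤ) + (frm a d t i).2).toNat.Prime ↔ i ∈ J) ⊆
      (P.filter (fun n => k < n)).image (fun n => n - k) ∪ Ioc (N - k) N := by
    intro n hn
    obtain ⟨hn1, hn2⟩ := mem_filter.1 hn
    rw [mem_Icc] at hn1
    rw [mem_union]
    by_cases hc : n + k ≤ N
    · left
      rw [mem_image]
      refine ⟨n + k, ?_, by omega⟩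
      rw [mem_filter, hP, mem_filter, mem_Icc]
      refine ⟨⟨⟨by omega, hc⟩, fun i => ?_⟩, by omega⟩
      rw [← hn2 i]
      unfold frm
      simp only
      rw [orbit_word', hk]
      push_cast
      exact Iff.rfl
    · right
      rw [mem_Ioc]
      omega
  refine (card_le_card hsub).trans ((card_union_le _ _).trans (add_le_add ?_ ?_))
  · exact card_image_le.trans (card_filter_le _ _)
  · rw [Nat.card_Ioc]
    omega

theorem famW_of {a d : Fin m → ℤ} {s C N : ℕ} {t : Fin (m + 1) → ℤ} (ht : t ∈ cube m s)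
    (hN : (N : ℝ) / (Real.log N) ^ (C + 1) + s ≤ (N : ℝ) / (Real.log N) ^ C) :
    fam C N (frm a d t) ⊆ famW (C + 1) N (word a d t) d := by
  classical
  intro S hS
  unfold fam at hS
  unfold famW
  rw [mem_filter] at hS ⊢
  refine ⟨mem_univ _, fun J hJ => ?_⟩
  have h1 := hS.2 J hJ
  have h2 : (pattern (frm a d t) J N : ℝ) ≤ patternW (word a d t) d J N + s := by
    exact_mod_cast pattern_le ht J N
  linarith

/-- the condition at large scales -/
theorem ev_scale (C : ℕ) : ∀ᶠ N : ℕ in atTop, ∀ s : ℕ, s ^ 2 ≤ N →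
    (N : ℝ) / (Real.log N) ^ (C + 1) + s ≤ (N : ℝ) / (Real.log N) ^ C := by
  have h1 : ∀ᶠ N : ℕ in atTop, 2 ≤ Real.log N :=
    (Real.tendsto_log_atTop.comp tendsto_natCast_atTop_atTop).eventually_ge_atTop _
  have h2 : ∀ᶠ N : ℕ in atTop, (Real.log N) ^ C ≤ 1 / 2 * (N : ℝ) ^ (1 / 2 : ℝ) := by
    have h5 : (fun x : ℝ => Real.log x ^ C) =o[atTop] fun x : ℝ => x ^ (1 / 2 : ℝ) := by
      rcases Nat.eq_zero_or_pos C with rfl | hC
      · simp only [pow_zero]
        have := tendsto_rpow_atTop (show (0 : ℝ) < 1 / 2 by norm_num)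
        exact (Asymptotics.isLittleO_const_left.2 (Or.inr (tendsto_norm_atTop_atTop.comp this)))
      · have h6 := (isLittleO_log_rpow_atTop (r := 1 / (2 * (C : ℝ))) (by positivity)).pow hC
        refine h6.congr' (Eventually.of_forall fun _ => rfl) ?_
        filter_upwards [eventually_ge_atTop 0] with x hx
        rw [← Real.rpow_natCast, ← Real.rpow_mul hx]
        congr 1
        field_simp
    have h7 := (h5.bound (show (0 : ℝ) < 1 / 2 by norm_num))
    have h8 := tendsto_natCast_atTop_atTop (R := ℝ) |>.eventually h7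
    filter_upwards [h8, h1] with N hN hN1
    rw [Real.norm_of_nonneg (by positivity), Real.norm_of_nonneg (by positivity)] at hN
    exact hN
  filter_upwards [h1, h2, eventually_ge_atTop 1] with N hN1 hN2 hN3 s hs
  have hNr : (1 : ℝ) ≤ N := by exact_mod_cast hN3
  have hL : (0 : ℝ) < Real.log N ^ C := by positivity
  have hsr : (s : ℝ) ≤ (N : ℝ) ^ (1 / 2 : ℝ) := by
    rw [← Real.sqrt_eq_rpow]
    apply Real.le_sqrt_of_sq_le
    exact_mod_cast hs
  have hNN : (N : ℝ) = (N : ℝ) ^ (1 / 2 : ℝ) * (N : ℝ) ^ (1 / 2 : ℝ) := by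
    rw [← Real.rpow_add (by linarith)]
    norm_num
  have h3 : (N : ℝ) / (Real.log N) ^ (C + 1) ≤ 1 / 2 * ((N : ℝ) / (Real.log N) ^ C) := by
    rw [pow_succ, ← div_div, div_le_iff₀ (by linarith)]
    have : 0 ≤ (N : ℝ) / Real.log N ^ C := by positivity
    nlinarith
  have h4 : (s : ℝ) ≤ 1 / 2 * ((N : ℝ) / (Real.log N) ^ C) := by
    rw [← mul_div_assoc, le_div_iff₀ hL]
    have h5 : (0 : ℝ) ≤ (N : ℝ) ^ (1 / 2 : ℝ) := by positivity
    calc (s : ℝ) * Real.log N ^ C ≤ (N : ℝ) ^ (1 / 2 : ℝ) * (1 / 2 * (N : ℝ) ^ (1 / 2 : ℝ)) :=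
          mul_le_mul hsr hN2 hL.le h5
      _ = 1 / 2 * N := by rw [mul_left_comm, ← hNN]
  linarith

open Classical in
/-- the bad words for the slopes `d` at the scale `N` -/
noncomputable def badW (C N : ℕ) (d : Fin m → ℤ) (u : Fin m → ℤ) (H : Fin m → ℕ) :
    Finset (Fin m → ℤ) :=
  (box u H).filter (fun b => Admissible b d ∧ ¬ Cov (famW C N b d))

/-- **the count for one vector of slopes** -/
theorem one (m : ℕ) : ∃ (C : ℕ) (c C₁ : ℝ), 0 < c ∧ 0 < C₁ ∧ ∀ A : ℕ, ∃ κ : ℝ, 0 < κ ∧
    ∀ᶠ N : ℕ in atTop, ∀ (s h : ℕ) (d u : Fin m → ℤ) (H : Fin m → ℕ), 1 ≤ s → s ^ 2 ≤ N →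
      (∀ i, 1 ≤ d i ∧ d i ≤ A) → (∀ i, (s : ℤ) * (d i + 1) ≤ h) → (∀ i, h ≤ H i) →
      (∀ i, |(u i : ℝ)| + H i ≤ κ * N) →
      ((badW C N d u H).card : ℝ) ≤ C₁ / (s : ℝ) ^ c * ∏ i, (H i : ℝ) := by
  classical
  obtain ⟨z, C, c, C₁, hc, hC₁, hcov⟩ := coverU (m + 1) (by omega)
  refine ⟨C + 1, c, 3 ^ m * C₁, hc, by positivity, fun A => ?_⟩
  set A' : ℕ := (A + 1) ^ m with hA'
  refine ⟨1 / (200 * A'), by positivity, ?_⟩
  filter_upwards [hcov A', ev_scale C, eventually_ge_atTop 40000] with N hN hsc hNN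
  intro s h d u H hs1 hsN hd hsd hhH huH
  have hd1 : ∀ i, 1 ≤ d i := fun i => (hd i).1
  have hA'1 : (1 : ℝ) ≤ A' := by
    rw [hA']
    push_cast
    exact one_le_pow₀ (by linarith [Nat.cast_nonneg (α := ℝ) A])
  have hNr : (40000 : ℝ) ≤ N := by exact_mod_cast hNN
  have hsr : (s : ℝ) ≤ N / 200 := by
    have h1 : (s : ℝ) ^ 2 ≤ N := by exact_mod_cast hsN
    by_contra hcon
    push Not at hcon
    nlinarith
  set E : ℝ := C₁ / (s : ℝ) ^ c * (s : ℝ) ^ (m + 1) with hE
  have hspos : (0 : ℝ) < s := by exact_mod_cast hs1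
  have hsc0 : (0 : ℝ) < (s : ℝ) ^ c := Real.rpow_pos_of_pos hspos c
  have hE0 : 0 ≤ E := by positivity
  have key := avg (u := u) (H := H) hd1 hsd hhH (badW C.succ N d u H) (by
    unfold badW
    exact filter_subset _ _) hE0 (by
    intro a ha
    have hle : (((cube m s).filter (fun t => word a d t ∈ badW C.succ N d u H)).card : ℝ) ≤
        ((Bad (cls a d s) A' z C N).card : ℝ) := by
      rw [Nat.cast_le]
      apply card_le_card_of_injOn (frm a d) _ (fun _ _ _ _ h => frm_inj a d h)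
      intro t ht
      obtain ⟨ht1, ht2⟩ := mem_filter.1 ht
      unfold badW at ht2
      obtain ⟨hb1, hb2, hb3⟩ := mem_filter.1 ht2
      rw [mem_coe]
      unfold Bad
      rw [mem_filter]
      have hval : ∀ (x : ℤ) (i : Fin (m + 1)), (frm a d t i).1 * x + (frm a d t i).2 =
          orbit (word a d t) d (x + t 0) i := by
        intro x i
        unfold frm
        exact orbit_word' a d t x i
      have hadm : ∀ p : ℕ, p.Prime → ∃ r : ℤ, ∀ i, ¬ (p : ℤ) ∣ (frm a d t i).1 * r + (frm a d t i).2 := by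
        intro p hp
        obtain ⟨x, hx⟩ := hb2 p hp
        refine ⟨x - t 0, fun i => ?_⟩
        rw [hval, sub_add_cancel]
        exact hx i
      refine ⟨frm_mem ht1, fun i => ?_, fun p _ hp => hadm p hp, fun hcv => hb3 ?_⟩
      · -- the size conditions
        have hD1 := slope_pos hd1 i
        have hDle : orbit 0 d 1 i ≤ A' := by
          refine (slope_le hd1 (fun i => (hd i).2) i).trans ?_
          rw [hA']
          push_cast
          exact pow_le_pow_right₀ (by linarith [Int.natCast_nonneg A]) (Nat.lt_succ_iff.1 i.2)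
        have hti : 0 < t i ∧ t i ≤ s := by
          unfold cube at ht1
          rw [Fintype.mem_piFinset] at ht1
          exact mem_Ioc.1 (ht1 i)
        have hai : ∀ j, |(a j : ℝ)| ≤ 2 * (1 / (200 * (A' : ℝ)) * N) := by
          intro j
          have h1 := ha j
          have h2 := huH j
          have h3 := hhH j
          have h4 : ((u j : ℝ) - h) < a j := by exact_mod_cast h1.1
          have h5 : (a j : ℝ) ≤ u j + H j + h := by exact_mod_cast h1.2
          have h6 : ((h : ℕ) : ℝ) ≤ H j := by exact_mod_cast h3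
          have h7 := abs_le.1 (le_refl |(u j : ℝ)|)
          have h8 : (0 : ℝ) ≤ H j := Nat.cast_nonneg _
          have h9 : 0 ≤ |(u j : ℝ)| := abs_nonneg _
          rw [abs_le]
          constructor <;> linarith
        have hc1 := const_le (a := a) (d := d) (A := A) (M := 2 * (1 / (200 * (A' : ℝ)) * N))
          (by positivity) hd1 (fun i => (hd i).2) hai i
        have hc2 : |(orbit a d 0 i : ℝ)| ≤ N / 100 := by
          refine hc1.trans ?_
          have h1 : ((A : ℝ) + 1) ^ (i : ℕ) ≤ A' := by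
            rw [hA']
            push_cast
            exact pow_le_pow_right₀ (by linarith [Nat.cast_nonneg (α := ℝ) A]) (Nat.lt_succ_iff.1 i.2)
          calc 2 * (1 / (200 * (A' : ℝ)) * N) * ((A : ℝ) + 1) ^ (i : ℕ)
              ≤ 2 * (1 / (200 * (A' : ℝ)) * N) * A' := mul_le_mul_of_nonneg_left h1 (by positivity)
            _ = N / 100 := by
              have : (A' : ℝ) ≠ 0 := by linarith
              field_simp
              ring
        have hti' : (t i : ℝ) ≤ s := by exact_mod_cast hti.2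
        have hti0 : (0 : ℝ) < t i := by exact_mod_cast hti.1
        have hc3 : |((orbit a d 0 i + t i : ℤ) : ℝ)| ≤ 3 * N / 200 := by
          push_cast
          rw [abs_le] at hc2 ⊢
          constructor <;> linarith [hc2.1, hc2.2]
        refine ⟨?_, ?_, ?_, ?_, ?_⟩
        · show orbit 0 d 1 i ≠ 0
          linarith
        · show |orbit 0 d 1 i| ≤ A'
          rw [abs_of_pos (by linarith)]
          exact hDle
        · show |orbit a d 0 i + t i| ≤ N
          have : |((orbit a d 0 i + t i : ℤ) : ℝ)| ≤ N := by linarith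
          exact_mod_cast this
        · rw [Int.isCoprime_iff_gcd_eq_one]
          by_contra hcon
          obtain ⟨p, hp, hpd⟩ := Nat.exists_prime_and_dvd hcon
          obtain ⟨n, hn⟩ := hadm p hp
          apply hn i
          have h1 : (p : ℤ) ∣ (Int.gcd (frm a d t i).1 (frm a d t i).2 : ℤ) :=
            Int.natCast_dvd_natCast.2 hpd
          exact dvd_add (Dvd.dvd.mul_right (h1.trans (Int.gcd_dvd_left _ _)) n)
            (h1.trans (Int.gcd_dvd_right _ _))
        · intro τ hτ1 _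
          show (N : ℝ) / 24 ≤ (orbit 0 d 1 i : ℝ) * τ + ((orbit a d 0 i + t i : ℤ) : ℝ)
          have h1 : (1 : ℝ) ≤ orbit 0 d 1 i := by exact_mod_cast hD1
          have h2 := (abs_le.1 hc3).1
          have h3 : 0 ≤ τ := by linarith
          nlinarith
      · exact Cov.mono (famW_of ht1 (hsc s hsN)) hcv
    refine hle.trans ((hN (cls a d s) s hs1 (fun i => (card_cls a d s i).ge)).trans ?_)
    rw [hE]
    apply le_of_eq
    congr 1
    rw [Finset.prod_congr rfl (fun i _ => by rw [card_cls]), Finset.prod_const]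
    simp)
  have hpos : (0 : ℝ) < (s : ℝ) ^ (m + 1) := by positivity
  rw [hE] at key
  have h1 : (3 : ℝ) ^ m * (∏ i, (H i : ℝ)) * (C₁ / (s : ℝ) ^ c * (s : ℝ) ^ (m + 1)) =
      (3 ^ m * C₁ / (s : ℝ) ^ c * ∏ i, (H i : ℝ)) * (s : ℝ) ^ (m + 1) := by ring
  rw [h1] at key
  exact le_of_mul_le_mul_right key hpos

end Pool.Agent.U829.WD
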