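import Mathlib
import Pool.Agent.U829.WD.Core

/-! Almost all words, for all vectors of slopes at the same time. -/

set_option autoImplicit false

namespace Pool.Agent.U829.WD

open Finset Filter
open Pool.Agent.N900.FC

variable {m : ℕ}

open Classical in
/-- the words with a bad vector of slopes at the scale `N` -/
noncomputable def badAll (C N : ℕ) (D : ℝ) (A : ℕ) (u : Fin m → ℤ) (H : Fin m → ℕ) :
    Finset (Fin m → ℤ) :=
  (box u H).filter (fun b => ∃ d : Fin m → ℤ, (∀ i, 1 ≤ d i ∧ (d i : ℝ) ≤ D ∧ d i ≤ A) ∧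
    Admissible b d ∧ ¬ Cov (famW C N b d))

theorem card_box (u : Fin m → ℤ) (H : Fin m → ℕ) : (box u H).card = ∏ i, H i := by
  unfold box
  rw [Fintype.card_piFinset]
  simp

theorem all (m : ℕ) (hm : 1 ≤ m) : ∃ (C : ℕ) (c C₁ : ℝ), 0 < c ∧ 0 < C₁ ∧ ∀ A : ℕ,
    ∃ κ : ℝ, 0 < κ ∧ ∀ᶠ N : ℕ in atTop, ∀ (h : ℕ) (u : Fin m → ℤ) (H : Fin m → ℕ), 1 ≤ h →
      (∀ i, h ≤ H i) → (∀ i, |(u i : ℝ)| + H i ≤ κ * N) →
      ((badAll C N ((h : ℝ) ^ c) A u H).card : ℝ) ≤ C₁ / (h : ℝ) ^ c * ∏ i, (H i : ℝ) := by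
  classical
  obtain ⟨C, c₀, C₀, hc₀, hC₀, hone⟩ := one m
  set c' : ℝ := min c₀ 1 with hc'
  have hc'0 : 0 < c' := lt_min hc₀ one_pos
  have hc'1 : c' ≤ 1 := min_le_right _ _
  have hmr : (1 : ℝ) ≤ m := by exact_mod_cast hm
  set c : ℝ := c' / (4 * (m + 1)) with hc
  have hcpos : 0 < c := by positivity
  have hc8 : c ≤ 1 / 8 := by
    rw [hc, div_le_iff₀ (by positivity)]
    nlinarith
  have hcm : c * m + c = c' / 4 := by
    rw [hc]
    field_simp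
  refine ⟨C, c, 2 * C₀ + 256, hcpos, by positivity, fun A => ?_⟩
  obtain ⟨κ, hκ, hev⟩ := hone A
  refine ⟨min κ 1, lt_min hκ one_pos, ?_⟩
  filter_upwards [hev] with N hN
  intro h u H hh hhH huH
  have hP0 : 0 ≤ ∏ i, (H i : ℝ) := Finset.prod_nonneg fun _ _ => Nat.cast_nonneg _
  have hhr : (1 : ℝ) ≤ h := by exact_mod_cast hh
  have hhc : (0 : ℝ) < (h : ℝ) ^ c := Real.rpow_pos_of_pos (by linarith) c
  by_cases h256 : h < 256
  · have h1 : ((badAll C N ((h : ℝ) ^ c) A u H).card : ℝ) ≤ ∏ i, (H i : ℝ) := by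
      have : (badAll C N ((h : ℝ) ^ c) A u H).card ≤ ∏ i, H i := by
        rw [← card_box u H]
        unfold badAll
        exact card_filter_le _ _
      exact_mod_cast this
    refine h1.trans (le_mul_of_one_le_left hP0 ?_)
    rw [one_le_div hhc]
    have h2 : (h : ℝ) ^ c ≤ (h : ℝ) ^ (1 : ℝ) := Real.rpow_le_rpow_of_exponent_le hhr (by linarith)
    rw [Real.rpow_one] at h2
    have h3 : (h : ℝ) ≤ 256 := by exact_mod_cast h256.le
    linarith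
  push Not at h256
  have h256r : (256 : ℝ) ≤ h := by exact_mod_cast h256
  set s : ℕ := Nat.sqrt h with hs
  have hs2 : s * s ≤ h := Nat.sqrt_le h
  have hs3 : h < (s + 1) * (s + 1) := Nat.lt_succ_sqrt h
  set y : ℝ := (h : ℝ) ^ (1 / 8 : ℝ) with hy
  have hy0 : 0 ≤ y := by positivity
  have hy8 : y ^ 8 = h := by
    rw [hy, ← Real.rpow_natCast, ← Real.rpow_mul (by linarith)]
    norm_num
  have hy2 : 2 ≤ y := by
    by_contra hcon
    push Not at hcon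
    have : y ^ 8 < 2 ^ 8 := pow_lt_pow_left₀ hcon hy0 (by norm_num)
    rw [hy8] at this
    norm_num at this
    linarith
  have hsy : y ^ 4 < s + 1 := by
    have h1 : ((h : ℕ) : ℝ) < ((s : ℝ) + 1) * (s + 1) := by exact_mod_cast hs3
    rw [← hy8] at h1
    have h2 : (0 : ℝ) ≤ (s : ℝ) + 1 := by positivity
    by_contra hcon
    push Not at hcon
    nlinarith
  have hy4 : y ^ 4 ≥ 8 * y := by
    have h1 : y ^ 3 ≥ 2 ^ 3 := pow_le_pow_left₀ (by norm_num) hy2 3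
    nlinarith
  have hsy2 : y + 1 ≤ s := by linarith
  have hs1 : 1 ≤ s := by
    have : (1 : ℝ) ≤ s := by linarith
    exact_mod_cast this
  have hsN : s ^ 2 ≤ N := by
    have h1 := hhH ⟨0, by omega⟩
    have h2 := huH ⟨0, by omega⟩
    have h3 : (min κ 1) * (N : ℝ) ≤ 1 * N := mul_le_mul_of_nonneg_right (min_le_right _ _) (Nat.cast_nonneg _)
    have h4 : ((h : ℕ) : ℝ) ≤ H ⟨0, by omega⟩ := by exact_mod_cast h1
    have h5 := abs_nonneg (u ⟨0, by omega⟩ : ℝ)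
    have h6 : (h : ℝ) ≤ N := by linarith
    have h7 : h ≤ N := by exact_mod_cast h6
    rw [pow_two]
    exact hs2.trans h7
  have hhy : (h : ℝ) ^ c ≤ y := by
    rw [hy]
    exact Real.rpow_le_rpow_of_exponent_le hhr hc8
  set I : Finset (Fin m → ℤ) := (Fintype.piFinset fun _ : Fin m => Icc (1 : ℤ) ⌊(h : ℝ) ^ c⌋).filter
    (fun d => ∀ i, d i ≤ A) with hI
  have hIc : (I.card : ℝ) ≤ ((h : ℝ) ^ c) ^ m := by
    have h1 : I.card ≤ (⌊(h : ℝ) ^ c⌋.toNat) ^ m := by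
      rw [hI]
      refine (card_filter_le _ _).trans ?_
      rw [Fintype.card_piFinset]
      simp
    have h2 : (I.card : ℝ) ≤ ((⌊(h : ℝ) ^ c⌋.toNat : ℕ) : ℝ) ^ m := by exact_mod_cast h1
    refine h2.trans (pow_le_pow_left₀ (Nat.cast_nonneg _) ?_ m)
    have h3 : (0 : ℤ) ≤ ⌊(h : ℝ) ^ c⌋ := Int.floor_nonneg.2 hhc.le
    have h4 : ((⌊(h : ℝ) ^ c⌋.toNat : ℕ) : ℝ) = ((⌊(h : ℝ) ^ c⌋ : ℤ) : ℝ) := by
      exact_mod_cast congrArg (fun z : ℤ => (z : ℝ)) (Int.toNat_of_nonneg h3)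
    rw [h4]
    exact Int.floor_le _
  have hsub : badAll C N ((h : ℝ) ^ c) A u H ⊆ I.biUnion (fun d => badW C N d u H) := by
    intro b hb
    unfold badAll at hb
    obtain ⟨hb1, d, hd, hb2, hb3⟩ := mem_filter.1 hb
    rw [mem_biUnion]
    refine ⟨d, ?_, ?_⟩
    · rw [hI, mem_filter, Fintype.mem_piFinset]
      exact ⟨fun i => mem_Icc.2 ⟨(hd i).1, Int.le_floor.2 (hd i).2.1⟩, fun i => (hd i).2.2⟩
    · unfold badW
      rw [mem_filter]
      exact ⟨hb1, hb2, hb3⟩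
  have hbd : ∀ d ∈ I, ((badW C N d u H).card : ℝ) ≤ C₀ / (s : ℝ) ^ c₀ * ∏ i, (H i : ℝ) := by
    intro d hd
    rw [hI, mem_filter, Fintype.mem_piFinset] at hd
    apply hN s h d u H hs1 hsN
    · intro i
      exact ⟨(mem_Icc.1 (hd.1 i)).1, hd.2 i⟩
    · intro i
      have h1 := Int.le_floor.1 (mem_Icc.1 (hd.1 i)).2
      have h2 : (((d i + 1 : ℤ)) : ℝ) ≤ ((s : ℕ) : ℤ) := by
        push_cast
        linarith
      have h3 : d i + 1 ≤ (s : ℤ) := by exact_mod_cast h2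
      have h4 : ((s : ℤ)) * s ≤ h := by exact_mod_cast hs2
      have h5 : (0 : ℤ) ≤ s := Int.natCast_nonneg _
      nlinarith
    · exact hhH
    · intro i
      exact (huH i).trans (mul_le_mul_of_nonneg_right (min_le_left _ _) (Nat.cast_nonneg _))
  have h1 : ((badAll C N ((h : ℝ) ^ c) A u H).card : ℝ) ≤ ∑ d ∈ I, ((badW C N d u H).card : ℝ) := by
    have := (card_le_card hsub).trans card_biUnion_le
    exact_mod_cast this
  have h2 := h1.trans (Finset.sum_le_card_nsmul I _ _ hbd)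
  rw [nsmul_eq_mul] at h2
  refine h2.trans ?_
  rw [← mul_assoc]
  apply mul_le_mul_of_nonneg_right _ hP0
  have hsr : (1 : ℝ) ≤ s := by exact_mod_cast hs1
  have hsc : (0 : ℝ) < (s : ℝ) ^ c₀ := Real.rpow_pos_of_pos (by linarith) _
  have hsc' : (0 : ℝ) < (s : ℝ) ^ c' := Real.rpow_pos_of_pos (by linarith) _
  have h3 : (s : ℝ) ^ c' ≤ (s : ℝ) ^ c₀ := Real.rpow_le_rpow_of_exponent_le hsr (min_le_left _ _)
  have h4 : (h : ℝ) ^ (c' / 2) ≤ 2 * (s : ℝ) ^ c' := by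
    have h5 : (h : ℝ) ^ (c' / 2) = (y ^ 4) ^ c' := by
      rw [hy, ← Real.rpow_natCast, ← Real.rpow_mul (by linarith), ← Real.rpow_mul (by linarith)]
      congr 1
      push_cast
      ring
    rw [h5]
    have h6 : y ^ 4 ≤ 2 * s := by linarith
    calc (y ^ 4) ^ c' ≤ (2 * (s : ℝ)) ^ c' := Real.rpow_le_rpow (by positivity) h6 hc'0.le
      _ = 2 ^ c' * (s : ℝ) ^ c' := Real.mul_rpow (by norm_num) (by linarith)
      _ ≤ 2 * (s : ℝ) ^ c' := by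
        apply mul_le_mul_of_nonneg_right _ hsc'.le
        calc (2 : ℝ) ^ c' ≤ 2 ^ (1 : ℝ) := Real.rpow_le_rpow_of_exponent_le (by norm_num) hc'1
          _ = 2 := Real.rpow_one 2
  have h5 : ((h : ℝ) ^ c) ^ m * (h : ℝ) ^ c = (h : ℝ) ^ (c' / 4) := by
    rw [← Real.rpow_natCast, ← Real.rpow_mul (by linarith), ← Real.rpow_add (by linarith), hcm]
  have h6 : (h : ℝ) ^ (c' / 4) ≤ (h : ℝ) ^ (c' / 2) :=
    Real.rpow_le_rpow_of_exponent_le hhr (by linarith)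
  rw [le_div_iff₀ hhc]
  calc (I.card : ℝ) * (C₀ / (s : ℝ) ^ c₀) * (h : ℝ) ^ c
      ≤ ((h : ℝ) ^ c) ^ m * (C₀ / (s : ℝ) ^ c') * (h : ℝ) ^ c := by
        apply mul_le_mul_of_nonneg_right _ hhc.le
        apply mul_le_mul hIc _ (by positivity) (by positivity)
        exact div_le_div_of_nonneg_left hC₀.le hsc' h3
    _ = C₀ * (h : ℝ) ^ (c' / 4) / (s : ℝ) ^ c' := by rw [← h5]; ring
    _ ≤ C₀ * (2 * (s : ℝ) ^ c') / (s : ℝ) ^ c' := by
        apply div_le_div_of_nonneg_right _ hsc'.le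
        exact mul_le_mul_of_nonneg_left (h6.trans h4) hC₀.le
    _ = 2 * C₀ := by
        field_simp
    _ ≤ 2 * C₀ + 256 := by linarith

open Classical in
/-- the words with a vector of slopes which is bad at all large scales -/
noncomputable def badEv (C : ℕ) (D : ℝ) (u : Fin m → ℤ) (H : Fin m → ℕ) :
    Finset (Fin m → ℤ) :=
  (box u H).filter (fun b => ∃ d : Fin m → ℤ, (∀ i, 1 ≤ d i ∧ (d i : ℝ) ≤ D) ∧
    Admissible b d ∧ ¬ ∃ᶠ N : ℕ in atTop, Cov (famW C N b d))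

theorem ev_of_all {C : ℕ} {c C₁ : ℝ} (hall : ∀ A : ℕ,
    ∃ κ : ℝ, 0 < κ ∧ ∀ᶠ N : ℕ in atTop, ∀ (h : ℕ) (u : Fin m → ℤ) (H : Fin m → ℕ), 1 ≤ h →
      (∀ i, h ≤ H i) → (∀ i, |(u i : ℝ)| + H i ≤ κ * N) →
      ((badAll C N ((h : ℝ) ^ c) A u H).card : ℝ) ≤ C₁ / (h : ℝ) ^ c * ∏ i, (H i : ℝ))
    (h : ℕ) (u : Fin m → ℤ) (H : Fin m → ℕ) (hh : 1 ≤ h) (hhH : ∀ i, h ≤ H i) :
    ((badEv C ((h : ℝ) ^ c) u H).card : ℝ) ≤ C₁ / (h : ℝ) ^ c * ∏ i, (H i : ℝ) := by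
  classical
  obtain ⟨κ, hκ, hev⟩ := hall ⌊(h : ℝ) ^ c⌋₊
  set I : Finset (Fin m → ℤ) := Fintype.piFinset fun _ : Fin m => Icc (1 : ℤ) ⌊(h : ℝ) ^ c⌋ with hI
  have h1 : ∀ᶠ N : ℕ in atTop, ∀ b ∈ box u H, ∀ d ∈ I,
      (¬ ∃ᶠ N' : ℕ in atTop, Cov (famW C N' b d)) → ¬ Cov (famW C N b d) := by
    rw [Finset.eventually_all]
    intro b _
    rw [Finset.eventually_all]
    intro d _
    by_cases hc : ∃ᶠ N' : ℕ in atTop, Cov (famW C N' b d)
    · exact Eventually.of_forall fun N hcon => absurd hc hcon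
    · have := not_frequently.1 hc
      exact this.mono fun N hN _ => hN
  have h2 : ∀ᶠ N : ℕ in atTop, ∀ i, |(u i : ℝ)| + H i ≤ κ * N := by
    rw [eventually_all]
    intro i
    have h3 : Tendsto (fun N : ℕ => κ * (N : ℝ)) atTop atTop :=
      tendsto_natCast_atTop_atTop.const_mul_atTop hκ
    exact h3.eventually_ge_atTop _
  obtain ⟨N, hN1, hN2, hN3⟩ := (hev.and (h1.and h2)).exists
  refine le_trans ?_ (hN1 h u H hh hhH hN3)
  rw [Nat.cast_le]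
  apply card_le_card
  intro b hb
  unfold badEv at hb
  obtain ⟨hb1, d, hd, hb2, hb3⟩ := mem_filter.1 hb
  unfold badAll
  rw [mem_filter]
  refine ⟨hb1, d, fun i => ⟨(hd i).1, (hd i).2, ?_⟩, hb2, ?_⟩
  · have h3 : (0 : ℝ) ≤ (h : ℝ) ^ c := by positivity
    have h4 : d i ≤ ⌊(h : ℝ) ^ c⌋ := Int.le_floor.2 (hd i).2
    rw [← Int.natCast_floor_eq_floor h3] at h4
    exact h4
  · refine hN2 b hb1 d ?_ hb3
    rw [hI, Fintype.mem_piFinset]
    exact fun i => mem_Icc.2 ⟨(hd i).1, Int.le_floor.2 (hd i).2⟩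

end Pool.Agent.U829.WD
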