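import Mathlib
import Pool.Agent.R493.OT.Comb
import Pool.Agent.U829.WD.Uni

/-! Consequences for the pairs of the question. -/

set_option autoImplicit false

namespace Pool.Agent.U829.WD

open Finset Filter
open Pool.Agent.N900.FC
open Pool.Agent.R493.OT (tur turan_four prs)

variable {m : ℕ}

/-- a probability distribution on the sets of indices which covers every index with probability
at least `5 / 18` -/
def Covers {T : ℕ} (p : Finset (Fin T) → ℝ) : Prop :=
  (∀ S, 0 ≤ p S) ∧ ∑ S, p S = 1 ∧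
    ∀ i, 5 / 18 ≤ ∑ S ∈ univ.filter (fun S : Finset (Fin T) => i ∈ S), p S

/-- the word is rich at the scale `N` -/
def RichAt (C N : ℕ) (a d : Fin m → ℤ) : Prop :=
  ∃ p : Finset (Fin (m + 1)) → ℝ, Covers p ∧ ∀ S, p S ≠ 0 → ∀ J ⊆ S,
    (N : ℝ) / (Real.log N) ^ C ≤ (patternW a d J N : ℝ)

/-- the word is rich at arbitrarily large scales -/
def Rich (C : ℕ) (a d : Fin m → ℤ) : Prop :=
  ∃ p : Finset (Fin (m + 1)) → ℝ, Covers p ∧ ∃ᶠ N : ℕ in atTop, ∀ S, p S ≠ 0 → ∀ J ⊆ S,
    (N : ℝ) / (Real.log N) ^ C ≤ (patternW a d J N : ℝ)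

theorem richAt_of {C N : ℕ} {a d : Fin m → ℤ} (h : Cov (famW C N a d)) : RichAt C N a d := by
  classical
  obtain ⟨p, h1, h2, h3, h4⟩ := frac_cover _ h
  refine ⟨p, ⟨h1, h2, h4⟩, fun S hS J hJ => ?_⟩
  have h5 := h3 S hS
  unfold famW at h5
  exact (mem_filter.1 h5).2 J hJ

theorem rich_of {C : ℕ} {a d : Fin m → ℤ} (h : ∃ᶠ N : ℕ in atTop, Cov (famW C N a d)) :
    Rich C a d := by
  classical
  obtain ⟨F, hF⟩ : ∃ F : Finset (Finset (Fin (m + 1))), ∃ᶠ N : ℕ in atTop,
      famW C N a d = F ∧ Cov F := by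
    by_contra hcon
    push Not at hcon
    have h1 : ∀ᶠ N : ℕ in atTop, ∀ F : Finset (Finset (Fin (m + 1))),
        famW C N a d = F → ¬ Cov F := by
      rw [eventually_all]
      intro F
      exact hcon F
    obtain ⟨N, hN1, hN2⟩ := (h.and_eventually h1).exists
    exact hN2 _ rfl hN1
  obtain ⟨N, _, hcov⟩ := hF.exists
  obtain ⟨p, h1, h2, h3, h4⟩ := frac_cover _ hcov
  refine ⟨p, ⟨h1, h2, h4⟩, hF.mono ?_⟩
  rintro N ⟨hN, _⟩ S hS J hJ
  have h5 := h3 S hS
  rw [← hN] at h5
  unfold famW at h5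
  exact (mem_filter.1 h5).2 J hJ

/-- the pair `(A, D)` satisfies the hypotheses and the conclusion of the question, with at least
`x / (log x) ^ C` primes `q ≤ x` for arbitrarily large `x` -/
def Good (C : ℕ) (A D : ℤ) : Prop :=
  1 ≤ D ∧ Int.gcd A D = 1 ∧ 2 ∣ A * D ∧
  {q : ℕ | q.Prime ∧ ∃ p : ℕ, p.Prime ∧ A + q * D = p}.Infinite ∧
  ∃ᶠ x : ℕ in atTop, (x : ℝ) / (Real.log x) ^ C ≤
    ({q : ℕ | q ≤ x ∧ q.Prime ∧ ∃ p : ℕ, p.Prime ∧ A + q * D = p}.ncard : ℝ)

/-- for `i ≤ j` the number `x_j` is `A + D x_i` with `D ≥ 1` -/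
theorem factor (a : Fin m → ℤ) {d : Fin m → ℤ} (hd : ∀ i, 1 ≤ d i) (i j : Fin (m + 1)) (hij : i ≤ j) :
    ∃ A D : ℤ, 1 ≤ D ∧ ∀ x : ℤ, orbit a d x j = A + orbit a d x i * D := by
  induction j using Fin.induction with
  | zero =>
    have : i = 0 := le_antisymm hij (Fin.zero_le i)
    subst this
    exact ⟨0, 1, le_rfl, fun x => by ring⟩
  | succ j ih =>
    rcases eq_or_lt_of_le hij with h | h
    · subst h
      exact ⟨0, 1, le_rfl, fun x => by ring⟩
    · obtain ⟨A, D, hD, hAD⟩ := ih (Fin.le_castSucc_iff.2 h)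
      refine ⟨a j + d j * A, d j * D, ?_, fun x => ?_⟩
      · have := hd j
        nlinarith
      · rw [orbit_succ, hAD x]
        ring

theorem orbit_le (a : Fin m → ℤ) (d : Fin m → ℤ) (i : Fin (m + 1)) :
    ∃ K : ℕ, 1 ≤ K ∧ ∀ n : ℕ, 1 ≤ n → orbit a d n i ≤ K * n := by
  refine ⟨(orbit 0 d 1 i).natAbs + (orbit a d 0 i).natAbs + 1, by omega, fun n hn => ?_⟩
  rw [orbit_lin]
  push_cast
  have h1 := le_abs_self (orbit 0 d 1 i)
  have h2 := le_abs_self (orbit a d 0 i)
  have h3 : (1 : ℤ) ≤ n := by exact_mod_cast hn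
  have h4 := abs_nonneg (orbit a d 0 i)
  nlinarith

theorem good_of {a d : Fin m → ℤ} (hd : ∀ i, 1 ≤ d i) (hadm : Admissible a d) {C : ℕ}
    {i j : Fin (m + 1)} (hij : i < j)
    (h : ∃ᶠ N : ℕ in atTop, (N : ℝ) / (Real.log N) ^ C ≤ (patternW a d {i, j} N : ℝ)) :
    ∃ A D : ℤ, (∀ x : ℤ, orbit a d x j = A + orbit a d x i * D) ∧ Good (C + 1) A D := by
  obtain ⟨A, D, hD, hAD⟩ := factor a hd i j hij.le
  obtain ⟨K, hK1, hK⟩ := orbit_le a d i
  refine ⟨A, D, hAD, hD, ?_, ?_, ?_⟩
  · by_contra hcon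
    obtain ⟨p, hp, hpd⟩ := Nat.exists_prime_and_dvd hcon
    obtain ⟨x, hx⟩ := hadm p hp
    apply hx j
    rw [hAD]
    have h1 : (p : ℤ) ∣ (Int.gcd A D : ℤ) := Int.natCast_dvd_natCast.2 hpd
    exact dvd_add (h1.trans (Int.gcd_dvd_left _ _)) (Dvd.dvd.mul_left (h1.trans (Int.gcd_dvd_right _ _)) _)
  · obtain ⟨x, hx⟩ := hadm 2 Nat.prime_two
    have hi := hx i
    have hj := hx j
    rw [hAD] at hj
    simp only [Nat.cast_ofNat] at hi hj
    rw [Int.two_dvd_ne_zero] at hi hj
    rw [← even_iff_two_dvd, Int.even_mul]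
    by_contra hcon
    push Not at hcon
    rw [Int.not_even_iff, Int.not_even_iff] at hcon
    obtain ⟨h1, h2⟩ := hcon
    have h3 : (A + orbit a d x i * D) % 2 = 0 := by
      rw [Int.add_emod, Int.mul_emod, h1, h2, hi]
      norm_num
    omega
  have hcnt : ∀ N : ℕ, (patternW a d {i, j} N : ℝ) ≤
      ({q : ℕ | q ≤ K * N ∧ q.Prime ∧ ∃ p : ℕ, p.Prime ∧ A + q * D = p}.ncard : ℝ) := by
    intro N
    rw [Nat.cast_le]
    unfold patternW
    rw [← Set.ncard_coe_finset]
    have hfinK : {q : ℕ | q ≤ K * N ∧ q.Prime ∧ ∃ p : ℕ, p.Prime ∧ A + q * D = p}.Finite :=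
      (Set.finite_Iic (K * N)).subset fun q hq => hq.1
    refine Set.ncard_le_ncard_of_injOn (fun n : ℕ => (orbit a d n i).toNat) ?_ ?_ hfinK
    · intro n hn
      rw [Finset.mem_coe, mem_filter, mem_Icc] at hn
      obtain ⟨⟨hn1, hn2⟩, hn3⟩ := hn
      have hpi : (orbit a d n i).toNat.Prime := (hn3 i).2 (by simp)
      have hpj : (orbit a d n j).toNat.Prime := (hn3 j).2 (by simp)
      have hi0 : 0 ≤ orbit a d n i := by
        by_contra hcon
        push Not at hcon
        rw [Int.toNat_of_nonpos hcon.le] at hpi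
        exact Nat.not_prime_zero hpi
      have hj0 : 0 ≤ orbit a d n j := by
        by_contra hcon
        push Not at hcon
        rw [Int.toNat_of_nonpos hcon.le] at hpj
        exact Nat.not_prime_zero hpj
      refine ⟨?_, hpi, (orbit a d n j).toNat, hpj, ?_⟩
      · have h1 := hK n hn1
        have h2 : ((orbit a d n i).toNat : ℤ) ≤ ((K * N : ℕ) : ℤ) := by
          rw [Int.toNat_of_nonneg hi0]
          refine h1.trans ?_
          push_cast
          exact mul_le_mul_of_nonneg_left (by exact_mod_cast hn2) (Int.natCast_nonneg K)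
        exact_mod_cast h2
      · rw [Int.toNat_of_nonneg hi0, Int.toNat_of_nonneg hj0]
        exact (hAD n).symm
    · intro n hn n' hn' hnn
      rw [Finset.mem_coe, mem_filter, mem_Icc] at hn hn'
      have hpi : (orbit a d n i).toNat.Prime := (hn.2 i).2 (by simp)
      have hpi' : (orbit a d n' i).toNat.Prime := (hn'.2 i).2 (by simp)
      simp only at hnn
      have hi0 : 0 ≤ orbit a d n i := by
        by_contra hcon
        push Not at hcon
        rw [Int.toNat_of_nonpos hcon.le] at hpi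
        exact Nat.not_prime_zero hpi
      have hi0' : 0 ≤ orbit a d n' i := by
        by_contra hcon
        push Not at hcon
        rw [Int.toNat_of_nonpos hcon.le] at hpi'
        exact Nat.not_prime_zero hpi'
      have h1 : orbit a d n i = orbit a d n' i := by
        rw [← Int.toNat_of_nonneg hi0, ← Int.toNat_of_nonneg hi0', hnn]
      rw [orbit_lin a d n i, orbit_lin a d n' i] at h1
      have h2 := slope_pos hd i
      have h3 : orbit 0 d 1 i * ((n : ℤ) - n') = 0 := by linarith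
      rcases mul_eq_zero.1 h3 with h4 | h4
      · linarith
      · have : (n : ℤ) = n' := by linarith
        exact_mod_cast this
  constructor
  · intro hfin
    set Q : Set ℕ := {q : ℕ | q.Prime ∧ ∃ p : ℕ, p.Prime ∧ A + q * D = p} with hQ
    have h1 : ∀ᶠ N : ℕ in atTop, (Q.ncard + 1 : ℝ) ≤ (N : ℝ) / (Real.log N) ^ C := by
      filter_upwards [ev_scale C, eventually_ge_atTop ((Q.ncard + 1) ^ 2), eventually_ge_atTop 3]
        with N hN1 hN2 hN3
      have h2 := hN1 (Q.ncard + 1) hN2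
      have h3 : (0 : ℝ) ≤ (N : ℝ) / (Real.log N) ^ (C + 1) := by
        have : 0 ≤ Real.log N := Real.log_natCast_nonneg N
        positivity
      push_cast at h2
      linarith
    obtain ⟨N, hN1, hN2⟩ := (h.and_eventually h1).exists
    have h2 := hcnt N
    have h3 : ({q : ℕ | q ≤ K * N ∧ q.Prime ∧ ∃ p : ℕ, p.Prime ∧ A + q * D = p}.ncard : ℝ) ≤ Q.ncard := by
      rw [Nat.cast_le]
      exact Set.ncard_le_ncard (fun q hq => hq.2) hfin
    linarith
  · have h1 : ∀ᶠ N : ℕ in atTop, (K : ℝ) ≤ Real.log N :=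
      (Real.tendsto_log_atTop.comp tendsto_natCast_atTop_atTop).eventually_ge_atTop _
    have h2 : ∃ᶠ N : ℕ in atTop, ((K * N : ℕ) : ℝ) / (Real.log (K * N : ℕ)) ^ (C + 1) ≤
        ({q : ℕ | q ≤ K * N ∧ q.Prime ∧ ∃ p : ℕ, p.Prime ∧ A + q * D = p}.ncard : ℝ) := by
      refine (h.and_eventually (h1.and (eventually_ge_atTop 1))).mono ?_
      rintro N ⟨hN1, hN2, hN3⟩
      refine le_trans ?_ (hN1.trans (hcnt N))
      have hKr : (1 : ℝ) ≤ K := by exact_mod_cast hK1
      have hNr : (1 : ℝ) ≤ N := by exact_mod_cast hN3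
      have hL : 0 < Real.log N := by linarith
      have hL' : Real.log N ≤ Real.log (K * N : ℕ) := by
        apply Real.log_le_log (by linarith)
        push_cast
        nlinarith
      calc ((K * N : ℕ) : ℝ) / (Real.log (K * N : ℕ)) ^ (C + 1)
          ≤ ((K * N : ℕ) : ℝ) / (Real.log N) ^ (C + 1) :=
            div_le_div_of_nonneg_left (Nat.cast_nonneg _) (by positivity)
              (pow_le_pow_left₀ hL.le hL' _)
        _ = (K / Real.log N) * ((N : ℝ) / (Real.log N) ^ C) := by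
            push_cast
            rw [pow_succ]
            field_simp
        _ ≤ 1 * ((N : ℝ) / (Real.log N) ^ C) := by
            apply mul_le_mul_of_nonneg_right _ (by positivity)
            rw [div_le_one hL]
            exact hN2
        _ = _ := one_mul _
    have h3 : Tendsto (fun N : ℕ => K * N) atTop atTop :=
      tendsto_id.const_mul_atTop' (by omega)
    exact h3.frequently h2

open Classical in
/-- the pairs `i < j` for which the map `x_i ↦ x_j` is good -/
noncomputable def goodPairs (C : ℕ) (a d : Fin m → ℤ) : Finset (Fin (m + 1) × Fin (m + 1)) :=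
  univ.filter fun e => e.1 < e.2 ∧
    ∃ A D : ℤ, (∀ x : ℤ, orbit a d x e.2 = A + orbit a d x e.1 * D) ∧ Good C A D

theorem pairs_of_rich {a d : Fin m → ℤ} (hd : ∀ i, 1 ≤ d i) (hadm : Admissible a d) {C : ℕ}
    (h : Rich C a d) : tur (m + 1) ≤ (goodPairs (C + 1) a d).card := by
  classical
  obtain ⟨p, ⟨hp0, hp1, hp2⟩, hfr⟩ := h
  have key := turan_four (m := m + 1) (fun i j => ∃ A D : ℤ,
    (∀ x : ℤ, orbit a d x j = A + orbit a d x i * D) ∧ Good (C + 1) A D) (by
    intro t ht
    -- a set of positive probability with two elements in `t`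
    obtain ⟨S, hS, hSt⟩ : ∃ S : Finset (Fin (m + 1)), p S ≠ 0 ∧ 2 ≤ (S ∩ t).card := by
      by_contra hcon
      push Not at hcon
      have h1 : ∑ i ∈ t, ∑ S ∈ univ.filter (fun S : Finset (Fin (m + 1)) => i ∈ S), p S =
          ∑ S : Finset (Fin (m + 1)), ((S ∩ t).card : ℝ) * p S := by
        simp_rw [Finset.sum_filter]
        rw [Finset.sum_comm]
        apply Finset.sum_congr rfl
        intro S _
        rw [← Finset.sum_filter, Finset.sum_const, nsmul_eq_mul]
        congr 3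
        ext i
        simp [and_comm]
      have h2 : ∑ i ∈ t, ∑ S ∈ univ.filter (fun S : Finset (Fin (m + 1)) => i ∈ S), p S ≥
          t.card • (5 / 18 : ℝ) := Finset.card_nsmul_le_sum _ _ _ fun i _ => hp2 i
      have h3 : ∑ S : Finset (Fin (m + 1)), ((S ∩ t).card : ℝ) * p S ≤ ∑ S, p S := by
        apply Finset.sum_le_sum
        intro S _
        by_cases hS : p S = 0
        · rw [hS, mul_zero]
        · have h4 : ((S ∩ t).card : ℝ) ≤ 1 := by
            exact_mod_cast Nat.lt_succ_iff.1 (hcon S hS)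
          calc ((S ∩ t).card : ℝ) * p S ≤ 1 * p S := mul_le_mul_of_nonneg_right h4 (hp0 S)
            _ = p S := one_mul _
      rw [ht, nsmul_eq_mul] at h2
      rw [h1] at h2
      rw [hp1] at h3
      norm_num at h2
      linarith
    obtain ⟨i, hi, j, hj, hij⟩ := Finset.one_lt_card.1 (show 1 < (S ∩ t).card by omega)
    have hmain : ∀ i j : Fin (m + 1), i ∈ S → j ∈ S → i < j → ∃ A D : ℤ,
        (∀ x : ℤ, orbit a d x j = A + orbit a d x i * D) ∧ Good (C + 1) A D := by
      intro i j hi hj hij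
      apply good_of hd hadm hij
      refine hfr.mono fun N hN => hN S hS _ ?_
      intro k hk
      rw [mem_insert, mem_singleton] at hk
      rcases hk with rfl | rfl
      · exact hi
      · exact hj
    rw [mem_inter] at hi hj
    rcases lt_or_gt_of_ne hij with h1 | h1
    · exact ⟨i, hi.2, j, hj.2, h1, hmain i j hi.1 hj.1 h1⟩
    · exact ⟨j, hj.2, i, hi.2, h1, hmain j i hj.1 hi.1 h1⟩)
  refine key.trans (card_le_card ?_)
  intro e he
  rw [mem_filter] at he
  unfold goodPairs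
  unfold prs at he
  rw [mem_filter] at he ⊢
  exact ⟨mem_univ _, he.1.2, he.2⟩

end Pool.Agent.U829.WD
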